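import Pool.Agent.Work.MP_5b5e81_al.Hedge.Main

/-! The free idempotent generated semigroup over the idempotents of the partition monoid is
residually finite. -/

set_option autoImplicit false

namespace Pool.Agent.Results.MP_5b5e81_al.ResiduallyFinite

open Pool.Agent.Work.MP_5b5e81_al.Hedge

/-- Any two different elements of `IG(E(P_n))` have different images under some homomorphism to a
finite semigroup. -/
theorem result (n : ℕ) (a b : IG n) (h : a ≠ b) :
    ∃ (F : Type) (_ : Semigroup F) (_ : Finite F) (φ : IG n →ₙ* F), φ a ≠ φ b :=
  residually_finite n a b h

end Pool.Agent.Results.MP_5b5e81_al.ResiduallyFinite
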